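import Mathlib

set_option autoImplicit false

namespace Pool.Agent.Results.MP_cbd977_an.Counter
open Matrix
open scoped ComplexOrder InnerProductSpace

/-- positive semi-definite kernel -/
def Psd {X : Type} (l : X → X → ℂ) : Prop :=
  ∀ (m : ℕ) (z : Fin m → X), (Matrix.of fun i j => l (z i) (z j)).PosSemidef

abbrev E (n : ℕ) := EuclideanSpace ℂ (Fin n)

/-- `Φ` is a contractive multiplier of the space of `ℂⁿ`-valued functions with kernel `l z w • 1` -/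
def Contr {X : Type} (l : X → X → ℂ) {n : ℕ} (Φ : X → Matrix (Fin n) (Fin n) ℂ) : Prop :=
  ∀ (H : Type) [NormedAddCommGroup H] [InnerProductSpace ℂ H] [CompleteSpace H]
    [RKHS ℂ H X (E n)], (∀ z w v, RKHS.kernel H z w v = l z w • v) →
    ∀ F : H, ∃ G : H, (∀ z, G z = toEuclideanLin (Φ z) (F z)) ∧ ‖G‖ ≤ ‖F‖

/-- complete pseudo-Pick pair -/
def PseudoPick {X : Type} (k l : X → X → ℂ) : Prop :=
  ∀ n : ℕ, 1 ≤ n → ∀ (z : Fin n → X) (W : Fin n → Matrix (Fin n) (Fin n) ℂ),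
    (Matrix.of fun p q : Fin n × Fin n =>
      (1 - W p.1 * (W q.1)ᴴ) p.2 q.2 * k (z p.1) (z q.1)).PosSemidef →
    ∃ Φ : X → Matrix (Fin n) (Fin n) ℂ, Contr l Φ ∧ ∀ i, Φ (z i) = W i

def kr : Fin 3 → Fin 3 → ℝ := ![![4, -1, 1], ![-1, 4, 1], ![1, 1, 1]]
def lr : Fin 3 → Fin 3 → ℝ := ![![5, 1, 1], ![1, 17, 1], ![1, 1, 1]]

variable {n : ℕ}

noncomputable def ip (u v : E n) : ℝ := (⟪u, v⟫_ℂ).re

lemma ip_comm (u v : E n) : ip u v = ip v u := by
  unfold ip; rw [← inner_conj_symm, Complex.conj_re]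
lemma ip_add_left (u v w : E n) : ip (u + v) w = ip u w + ip v w := by simp [ip, inner_add_left]
lemma ip_add_right (u v w : E n) : ip w (u + v) = ip w u + ip w v := by simp [ip, inner_add_right]
lemma ip_smul_left (s : ℝ) (u v : E n) : ip ((s : ℂ) • u) v = s * ip u v := by
  simp [ip, inner_smul_left]
lemma ip_smul_right (s : ℝ) (u v : E n) : ip v ((s : ℂ) • u) = s * ip v u := by
  simp [ip, inner_smul_right]
lemma ip_zero_left (v : E n) : ip 0 v = 0 := by simp [ip]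
lemma ip_zero_right (v : E n) : ip v 0 = 0 := by simp [ip]
lemma ip_self (u : E n) : ip u u = ‖u‖ ^ 2 := inner_self_eq_norm_sq (𝕜 := ℂ) u

noncomputable def Q (κ : Fin 3 → Fin 3 → ℝ) (u : Fin 3 → E n) : ℝ :=
  ∑ a, ∑ b, κ a b * ip (u a) (u b)

lemma form (z : Fin n → Fin 3) (W : Fin n → Matrix (Fin n) (Fin n) ℂ)
    (h : (Matrix.of fun p q : Fin n × Fin n =>
      (1 - W p.1 * (W q.1)ᴴ) p.2 q.2 * (kr (z p.1) (z q.1) : ℂ)).PosSemidef) (s : Fin 3 → Fin n)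
    (u : Fin 3 → E n) : Q (fun a b => kr (z (s a)) (z (s b))) (fun a => toEuclideanLin (W (s a))ᴴ (u a)) ≤
      Q (fun a b => kr (z (s a)) (z (s b))) u := by
  have h1 := (h.submatrix fun p : Fin 3 × Fin n => (s p.1, p.2)).dotProduct_mulVec_nonneg
    fun p => u p.1 p.2
  have e : ∀ a b, ⟪u a, u b⟫_ℂ - ⟪toEuclideanLin (W (s a))ᴴ (u a), toEuclideanLin (W (s b))ᴴ (u b)⟫_ℂ =
      ∑ r, ∑ t, star (u a r) * ((1 - W (s a) * (W (s b))ᴴ) r t * u b t) := by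
    intro a b
    rw [toEuclideanLin_conjTranspose_eq_adjoint (W (s a)), LinearMap.adjoint_inner_left,
      ← inner_sub_right, EuclideanSpace.inner_eq_star_dotProduct]
    have : (u b - toEuclideanLin (W (s a)) (toEuclideanLin (W (s b))ᴴ (u b))).ofLp =
        (1 - W (s a) * (W (s b))ᴴ) *ᵥ (u b).ofLp := by
      rw [sub_mulVec, one_mulVec, ← mulVec_mulVec]; rfl
    rw [this, dotProduct_comm]
    simp only [dotProduct, mulVec, Finset.mul_sum, Pi.star_apply]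
  have h2 : star (fun p : Fin 3 × Fin n => u p.1 p.2) ⬝ᵥ ((Matrix.of fun p q : Fin n × Fin n =>
      (1 - W p.1 * (W q.1)ᴴ) p.2 q.2 * (kr (z p.1) (z q.1) : ℂ)).submatrix
      (fun p : Fin 3 × Fin n => (s p.1, p.2)) fun p : Fin 3 × Fin n => (s p.1, p.2)) *ᵥ
      (fun p => u p.1 p.2) = ∑ a, ∑ b, (kr (z (s a)) (z (s b)) : ℂ) * (⟪u a, u b⟫_ℂ -
        ⟪toEuclideanLin (W (s a))ᴴ (u a), toEuclideanLin (W (s b))ᴴ (u b)⟫_ℂ) := by
    simp only [e, dotProduct, mulVec, Finset.mul_sum, Pi.star_apply, Fintype.sum_prod_type,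
      submatrix_apply, of_apply]
    refine Finset.sum_congr rfl fun a _ => ?_
    rw [Finset.sum_comm]
    refine Finset.sum_congr rfl fun b _ => Finset.sum_congr rfl fun r _ =>
      Finset.sum_congr rfl fun t _ => ?_
    ring
  rw [h2] at h1
  have h3 := (Complex.nonneg_iff.1 h1).1
  simp only [Complex.re_sum, Complex.re_ofReal_mul, Complex.sub_re, mul_sub,
    Finset.sum_sub_distrib] at h3
  exact sub_nonneg.1 h3

lemma key (T : Fin 3 → E n →ₗ[ℂ] E n) (c : Fin 3 → Fin 3)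
    (hc : c = ![0, 1, 2] ∨ c = ![0, 1, 0] ∨ c = ![0, 2, 2] ∨ c = ![2, 1, 2] ∨ c = ![0, 0, 0] ∨
      c = ![1, 1, 1] ∨ c = ![2, 2, 2])
    (h : ∀ u, Q (fun a b => kr (c a) (c b)) (fun a => T a (u a)) ≤ Q (fun a b => kr (c a) (c b)) u)
    (u : Fin 3 → E n) : Q lr (fun a => T a (u a)) ≤ Q lr u := by
  have h0 := h u
  have h1 := h ![u 0, 0, 0]
  have h2 := h ![0, u 1, 0]
  have h3 := h ![((1 / 2 : ℝ) : ℂ) • u 0, ((-2 : ℝ) : ℂ) • u 1, ((1 / 2 : ℝ) : ℂ) • u 2]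
  have h4 := h ![((1 / 2 : ℝ) : ℂ) • u 0, ((-2 : ℝ) : ℂ) • u 1,
    ((-1 / 2 : ℝ) : ℂ) • u 0 + ((2 : ℝ) : ℂ) • u 1]
  have h5 : 0 ≤ ip (((1 / 2 : ℝ) : ℂ) • T 0 (u 0) + ((-2 : ℝ) : ℂ) • T 1 (u 1) +
      T 2 (((-1 / 2 : ℝ) : ℂ) • u 0 + ((2 : ℝ) : ℂ) • u 1)) (((1 / 2 : ℝ) : ℂ) • T 0 (u 0) +
      ((-2 : ℝ) : ℂ) • T 1 (u 1) + T 2 (((-1 / 2 : ℝ) : ℂ) • u 0 + ((2 : ℝ) : ℂ) • u 1)) := by
    rw [ip_self]; positivity
  have c1 := ip_comm (u 0) (u 1)
  rcases hc with rfl | rfl | rfl | rfl | rfl | rfl | rfl <;>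
    simp only [Q, Fin.sum_univ_three, kr, lr, cons_val_zero, cons_val_one, cons_val_two, tail_cons,
      head_cons, map_zero, map_smul, map_add, ip_add_left, ip_add_right, ip_smul_left, ip_smul_right,
      ip_zero_left, ip_zero_right, Nat.succ_eq_add_one, Nat.reduceAdd] at h0 h1 h2 h3 h4 h5 ⊢ <;>
    linarith

lemma contr (Φ : Fin 3 → Matrix (Fin n) (Fin n) ℂ)
    (h : ∀ u, Q lr (fun a => toEuclideanLin (Φ a)ᴴ (u a)) ≤ Q lr u) :
    Contr (fun a b => (lr a b : ℂ)) Φ := by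
  intro H _ _ _ _ hK F
  let S : (Fin 3 → E n) → H := fun u => ∑ a, RKHS.kerFun H a (u a)
  have hS : ∀ u b, S u b = ∑ a, (lr b a : ℂ) • u a := fun u b => by
    simp only [S, Fin.sum_univ_three, RKHS.coe_add, Pi.add_apply, RKHS.kerFun_apply, hK]
  have hI : ∀ u (G : H), ⟪S u, G⟫_ℂ = ∑ a, ⟪u a, G a⟫_ℂ := fun u G => by
    simp only [S, sum_inner, RKHS.kerFun_inner]
  have hN : ∀ u, ‖S u‖ ^ 2 = Q lr u := fun u => by
    rw [← inner_self_eq_norm_sq (𝕜 := ℂ), hI]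
    simp only [hS, inner_sum, inner_smul_right, Q, ip, RCLike.re_to_complex, Complex.re_sum,
      Complex.re_ofReal_mul]
  let t : Fin 3 → E n := fun a => toEuclideanLin (Φ a) (F a)
  let u : Fin 3 → E n := ![(1 / 4 : ℂ) • (t 0 - t 2), (1 / 16 : ℂ) • (t 1 - t 2),
    t 2 - (1 / 4 : ℂ) • (t 0 - t 2) - (1 / 16 : ℂ) • (t 1 - t 2)]
  have hG : ∀ b, S u b = t b := fun b => by
    rw [hS]
    fin_cases b <;> simp [Fin.sum_univ_three, lr, u] <;> module
  refine ⟨S u, hG, ?_⟩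
  have e : ⟪S u, S u⟫_ℂ = ⟪S fun a => toEuclideanLin (Φ a)ᴴ (u a), F⟫_ℂ := by
    rw [hI, hI]
    refine Finset.sum_congr rfl fun a _ => ?_
    rw [hG, toEuclideanLin_conjTranspose_eq_adjoint, LinearMap.adjoint_inner_left]
  have h1 := re_inner_le_norm (𝕜 := ℂ) (S fun a => toEuclideanLin (Φ a)ᴴ (u a)) F
  rw [← e, inner_self_eq_norm_sq] at h1
  have h2 := h u
  rw [← hN, ← hN] at h2
  by_contra hc
  push Not at hc
  nlinarith [norm_nonneg F, sq_nonneg (‖S fun a => toEuclideanLin (Φ a)ᴴ (u a)‖ - ‖F‖)]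

lemma pick : PseudoPick (fun a b => (kr a b : ℂ)) fun a b => (lr a b : ℂ) := by
  intro n hn z W h
  have same : ∀ i j, z i = z j → W i = W j := by
    intro i j e
    have : ∀ v : E n, toEuclideanLin (W i)ᴴ v = toEuclideanLin (W j)ᴴ v := by
      intro v
      have h1 := form z W h ![i, j, j] ![v, ((-1 : ℝ) : ℂ) • v, 0]
      have h2 : 0 < kr (z j) (z j) := by generalize z j = p; fin_cases p <;> simp [kr]
      have h3 := ip_self (toEuclideanLin (W i)ᴴ v + ((-1 : ℝ) : ℂ) • toEuclideanLin (W j)ᴴ v)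
      simp only [Q, Fin.sum_univ_three, cons_val_zero, cons_val_one, cons_val_two, tail_cons,
        head_cons, map_zero, map_smul, ip_add_left, ip_add_right, ip_smul_left, ip_smul_right,
        ip_zero_left, ip_zero_right, Nat.succ_eq_add_one, Nat.reduceAdd, e] at h1 h3
      have h4 : ‖toEuclideanLin (W i)ᴴ v + ((-1 : ℝ) : ℂ) • toEuclideanLin (W j)ᴴ v‖ ^ 2 ≤ 0 := by
        by_contra hc
        push Not at hc
        nlinarith [mul_pos h2 hc]
      have h5 := norm_eq_zero.1 (pow_eq_zero_iff two_ne_zero |>.1 (le_antisymm h4 (by positivity)))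
      rw [← sub_eq_zero, ← h5]
      simp [sub_eq_add_neg]
    have := toEuclideanLin.injective (LinearMap.ext this)
    exact conjTranspose_injective this
  obtain ⟨s, hs, hc⟩ : ∃ s : Fin 3 → Fin n, (∀ i, z (s (z i)) = z i) ∧ (z ∘ s = ![0, 1, 2] ∨
      z ∘ s = ![0, 1, 0] ∨ z ∘ s = ![0, 2, 2] ∨ z ∘ s = ![2, 1, 2] ∨ z ∘ s = ![0, 0, 0] ∨
      z ∘ s = ![1, 1, 1] ∨ z ∘ s = ![2, 2, 2]) := by
    have t : ∀ p : Fin 3, p = 0 ∨ p = 1 ∨ p = 2 := by decide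
    have f : ∀ i j k : Fin n, z ∘ ![i, j, k] = ![z i, z j, z k] := fun i j k => by
      funext a; fin_cases a <;> rfl
    by_cases h0 : ∃ i, z i = 0 <;> by_cases h1 : ∃ i, z i = 1 <;> by_cases h2 : ∃ i, z i = 2
    · obtain ⟨⟨i, hi⟩, ⟨j, hj⟩, k, hk⟩ := And.intro h0 (And.intro h1 h2)
      exact ⟨![i, j, k], fun a => by rcases t (z a) with e | e | e <;> simp_all, by simp [f, *]⟩
    · obtain ⟨⟨i, hi⟩, j, hj⟩ := And.intro h0 h1
      exact ⟨![i, j, i], fun a => by rcases t (z a) with e | e | e <;> simp_all, by simp [f, *]⟩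
    · obtain ⟨⟨i, hi⟩, j, hj⟩ := And.intro h0 h2
      exact ⟨![i, j, j], fun a => by rcases t (z a) with e | e | e <;> simp_all, by simp [f, *]⟩
    · obtain ⟨i, hi⟩ := h0
      exact ⟨![i, i, i], fun a => by rcases t (z a) with e | e | e <;> simp_all, by simp [f, *]⟩
    · obtain ⟨⟨i, hi⟩, j, hj⟩ := And.intro h1 h2
      exact ⟨![j, i, j], fun a => by rcases t (z a) with e | e | e <;> simp_all, by simp [f, *]⟩
    · obtain ⟨i, hi⟩ := h1
      exact ⟨![i, i, i], fun a => by rcases t (z a) with e | e | e <;> simp_all, by simp [f, *]⟩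
    · obtain ⟨i, hi⟩ := h2
      exact ⟨![i, i, i], fun a => by rcases t (z a) with e | e | e <;> simp_all, by simp [f, *]⟩
    · rcases t (z ⟨0, hn⟩) with e | e | e <;> simp_all
  exact ⟨fun a => W (s a), contr _ (key (fun a => toEuclideanLin (W (s a))ᴴ) (z ∘ s) hc
    (form z W h s)), fun i => same _ _ (hs i)⟩

lemma psd (κ : Fin 3 → Fin 3 → ℝ) (B : Matrix (Fin 5) (Fin 3) ℂ)
    (h : (Matrix.of fun a b => (κ a b : ℂ)) = Bᴴ * B) : Psd fun a b => (κ a b : ℂ) := fun _ z => by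
  have := (posSemidef_conjTranspose_mul_self B).submatrix z
  rw [← h] at this
  exact this

theorem result : ∃ (X : Type) (k l : X → X → ℂ), Psd k ∧ Psd l ∧ (∀ z w, k z w ≠ 0) ∧
    PseudoPick k l ∧ ¬Psd fun z w => l z w / k z w := by
  refine ⟨Fin 3, fun a b => kr a b, fun a b => lr a b,
    psd _ !![1, 1, 1; 1, -1, 0; 1, -1, 0; 1, 0, 0; 0, 1, 0] ?_,
    psd _ !![1, 1, 1; 2, 0, 0; 0, 4, 0; 0, 0, 0; 0, 0, 0] ?_,
    ?_, pick, fun h => ?_⟩
  · ext a b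
    fin_cases a <;> fin_cases b <;> simp [kr, mul_apply, Fin.sum_univ_five] <;> norm_num
  · ext a b
    fin_cases a <;> fin_cases b <;> simp [lr, mul_apply, Fin.sum_univ_five, map_ofNat] <;> norm_num
  · intro a b
    fin_cases a <;> fin_cases b <;> simp [kr]
  · have h1 := (h 3 id).dotProduct_mulVec_nonneg ![1, 1, -2]
    have h2 := (Complex.nonneg_iff.1 h1).1
    simp [dotProduct, mulVec, Fin.sum_univ_three, kr, lr] at h2
    norm_num at h2

end Pool.Agent.Results.MP_cbd977_an.Counter
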